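import Pool.Agent.helper58.FI4E.Spec

set_option autoImplicit false

namespace Pool.Agent.FI4E

open Pool.Agent.helper58.DC Pool.Agent.DI Pool.Agent.GR Pool.Agent.OB Pool.Agent.DR Pool.Agent.FI Pool.Agent.FI3 Pool.Agent.FI4 Pool.Agent.FI4I

theorem TRA_mem {G : Type} [Group G] {N : Subgroup G} {α : MulAut G} (h : am α N = N) {n : G}
    (hn : n ∈ N) : α n ∈ N := by
  rw [← h, mem_am, MulAut.inv_apply_self]
  exact hn

theorem TRA_mem' {G : Type} [Group G] {N : Subgroup G} {α : MulAut G} (h : am α N = N) {n : G}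
    (hn : n ∈ N) : α⁻¹ n ∈ N := by
  rw [← h] at hn
  exact mem_am.1 hn

/-- The restriction of `α` to `N`. -/
def TRA_res {G : Type} [Group G] (N : Subgroup G) (α : MulAut G) (h : am α N = N) : MulAut N where
  toFun n := ⟨α (n : G), TRA_mem h n.2⟩
  invFun n := ⟨α⁻¹ (n : G), TRA_mem' h n.2⟩
  left_inv n := Subtype.ext (MulAut.inv_apply_self G α (n : G))
  right_inv n := Subtype.ext (MulAut.apply_inv_self G α (n : G))
  map_mul' a b := Subtype.ext (map_mul α (a : G) (b : G))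

theorem TRA : TRA_stmt := by
  intro G _ _ N α
  refine ⟨fun h => ⟨TRA_res N α h, fun n => rfl⟩, fun β hβ => ?_⟩
  have hinv : ∀ n : N, ((β⁻¹ n : N) : G) = α⁻¹ (n : G) := by
    intro n
    have h1 := hβ (β⁻¹ n)
    rw [MulAut.apply_inv_self] at h1
    rw [h1, MulAut.inv_apply_self]
  refine ⟨?_, hinv, ?_, ?_⟩
  · ext x
    rw [mem_am]
    constructor
    · intro h
      have h1 := hβ ⟨α⁻¹ x, h⟩
      change ((β ⟨α⁻¹ x, h⟩ : N) : G) = α (α⁻¹ x) at h1
      rw [MulAut.apply_inv_self] at h1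
      rw [← h1]
      exact (β ⟨α⁻¹ x, h⟩).2
    · intro h
      have h1 := hinv ⟨x, h⟩
      change ((β⁻¹ ⟨x, h⟩ : N) : G) = α⁻¹ x at h1
      rw [← h1]
      exact (β⁻¹ ⟨x, h⟩).2
  · intro ψ
    funext n
    change ψ ((β⁻¹ n : N) : G) = ψ (α⁻¹ (n : G))
    rw [hinv]
  · intro H _
    ext n
    rw [mem_am, Subgroup.mem_subgroupOf, Subgroup.mem_subgroupOf, mem_am, hinv]

end Pool.Agent.FI4E
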