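import Pool.Agent.helper58.FI4E.Spec

set_option autoImplicit false

namespace Pool.Agent.FI4E

open Pool.Agent.helper58.DC Pool.Agent.DI Pool.Agent.GR Pool.Agent.OB Pool.Agent.DR Pool.Agent.FI Pool.Agent.FI3 Pool.Agent.FI4 Pool.Agent.FI4I

theorem LOE_ex (hBKV : BKV_stmt) (hEXB : EXB_stmt) (p : ℕ) (M : Ideal (integralClosure ℤ ℂ)) (hS : Setup p M)
    (G : Type) [Group G] [Finite G] (D : Subgroup G) (x : G) (θ χ : G → ℂ) (hR : Rt p M D x θ χ)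
    (Q N : Subgroup G) (hM : Mid p Q N) (g : G) (hg : Q ≤ cjS g D) :
    ∀ ζ ∈ Blk M χ (N ⊓ nz (cjS g D)), ∃ φ ∈ IrrOn N, SB M N ζ φ := by
  intro ζ hζ
  obtain ⟨h1, h2, -, h4⟩ := hBKV p M hS G D x θ χ hR Q N hM g hg
  obtain ⟨θ₁, hθ₁, -, h5⟩ := h4 ζ hζ.1
  have h6 : IsPGroup p (cjS g D) := hR.dfa.pgrp.map _
  have h7 : N ⊓ cz (cjS g D) = cz (cjS g D) := inf_eq_right.2 h2
  rw [← h7] at hθ₁
  obtain ⟨ψ, hψ, h8⟩ := hEXB p M hS G N (cjS g D) h6 h1 θ₁ hθ₁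
  exact ⟨ψ, hψ, h5.symm.trans h8⟩

theorem LOE (hLBE : LBE_stmt) (hLSE : LSE_stmt) (hBKV : BKV_stmt) (hEXB : EXB_stmt) : LOE_stmt := by
  classical
  intro p M hS G _ _ D x θ χ hR Q N hM hRed β hβN hβQ hβD
  have hF : (Blk M χ N).Finite := (IrrOn_fin N).subset fun φ h => h.1
  have hNf : (N : Set G).Finite := Set.toFinite _
  have hT : ∀ n : G, {g : G | Q ≤ cjS g D ∧ am (al β n) (cjS g D) = cjS g D}.Finite :=
    fun _ => Set.toFinite _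
  have hN : ∀ ζ ∈ Blk M χ N, ∃ φ ∈ IrrOn N, SB M N ζ φ := fun ζ h => ⟨ζ, h.1, SB.refl _ _⟩
  have h1 := hLSE p M hS G χ N N le_rfl hN β
  have h2 : ∀ n g : G, Q ≤ cjS g D →
      ∑ᶠ φ ∈ Blk M χ N, tS p (N ⊓ nz (cjS g D)) (Bq M N (N ⊓ nz (cjS g D)) φ) (al β n) /
        ((Bl M N φ).ncard : ℂ) = tL p M χ (N ⊓ nz (cjS g D)) (al β n) := fun n g hg =>
    hLSE p M hS G χ N (N ⊓ nz (cjS g D)) inf_le_left
      (LOE_ex hBKV hEXB p M hS G D x θ χ hR Q N hM g hg) (al β n)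
  have h3 := fun φ hφ => hLBE p M hS G D x θ χ hR Q N hM hRed φ hφ β hβN hβQ hβD
  have e1 : (Nat.card (nz D) : ℂ) * ((Nat.card N : ℂ) * tL p M χ N β) =
      ∑ φ ∈ hF.toFinset, ((Nat.card (nz D) : ℂ) * ((Nat.card N : ℂ) * tS p N (Bq M N N φ) β)) /
        ((Bl M N φ).ncard : ℂ) := by
    rw [← h1, finsum_mem_eq_finite_toFinset_sum _ hF, Finset.mul_sum, Finset.mul_sum]
    exact Finset.sum_congr rfl fun φ _ => by ring
  have e2 : ∀ φ ∈ hF.toFinset,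
      ((Nat.card (nz D) : ℂ) * ((Nat.card N : ℂ) * tS p N (Bq M N N φ) β)) /
        ((Bl M N φ).ncard : ℂ) = ∑ n ∈ hNf.toFinset, ∑ g ∈ (hT n).toFinset,
          tS p (N ⊓ nz (cjS g D)) (Bq M N (N ⊓ nz (cjS g D)) φ) (al β n) / ((Bl M N φ).ncard : ℂ) := by
    intro φ hφ
    rw [h3 φ (hF.mem_toFinset.1 hφ), finsum_mem_eq_finite_toFinset_sum _ hNf, Finset.sum_div]
    refine Finset.sum_congr rfl fun n _ => ?_
    rw [finsum_mem_eq_finite_toFinset_sum _ (hT n), Finset.sum_div]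
  rw [e1, Finset.sum_congr rfl e2, Finset.sum_comm, finsum_mem_eq_finite_toFinset_sum _ hNf]
  refine Finset.sum_congr rfl fun n _ => ?_
  rw [Finset.sum_comm, finsum_mem_eq_finite_toFinset_sum _ (hT n)]
  refine Finset.sum_congr rfl fun g hg => ?_
  have hg' : Q ≤ cjS g D := ((hT n).mem_toFinset.1 hg).1
  rw [← h2 n g hg', finsum_mem_eq_finite_toFinset_sum _ hF]

end Pool.Agent.FI4E
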